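import Mathlib
import Pool.Agent.H21.FF.Bridge

/-!
# Products of abelian varieties over finite fields whose Frobenius fields have a common imaginary
quadratic subfield, and the CM fields which allow at most one exotic relation

Let `A` be an abelian variety over the algebraic closure of the field with `p` elements, isogenous to a
product of powers of the reductions `A i` of abelian varieties with complex multiplication by CM fields
`E i` of degree `2 dim (A i)`, with Frobenius endomorphisms `π i ∈ E i`. `Generates (π i)` says that
`E i = ℚ(π i ^ n)` for all `n > 0`; then `A i` is simple, with commutative endomorphism algebra `E i`. The
group of automorphisms of `ℂ` acts on the functions with values in `ℚ` on the set of the complex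
embeddings of `E i`; let `core d (E i)` (`CoreFn`) be the space of all odd functions `f` (that is
`f (conj φ) = - f φ`) such that the sum of the values `f φ` over the embeddings `φ` with `φ (√-d)` in the
upper half plane is zero, if `√-d` is in `E i`, and of all odd functions if `√-d` is not in `E i`.

**Theorem.**

(A) Let `d > 0`. Suppose that for each `i` either `core d (E i)` is zero (that is `E i = ℚ(√-d)`, and
`A i` is an elliptic curve), or it is irreducible and `A i` has a commutative endomorphism algebra, and
that for `i ≠ k` there is no nonzero equivariant map from `core d (E i)` to `core d (E k)`. Then the
numerical Hodge standard conjecture holds, for all polarizations and in all codimensions, for every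
abelian variety `Y` isogenous to a product of powers of the `A i` and a supersingular abelian variety
(`HodgeOnPowers`): if `z` is the class of a cycle of codimension `r` on `Y`, `dim Y = 2 r + m`, that is
not numerically equivalent to zero, and `z · L ^ (m + 1) = 0` for the class `L` of the polarization, then
`(-1) ^ r z · z · L ^ m > 0`.

(B) The conclusion holds in particular if all `E i` contain the same imaginary quadratic field `ℚ(√-d)`,
and for each `E i` different from `ℚ(√-d)` the endomorphism algebra of `A i` is commutative, and
`dim (A i)` is a prime number or the Galois group permutes the embeddings of `E i` over a fixed
embedding of `ℚ(√-d)` doubly transitively, and these `E i` have different degrees. Example: `A` is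
isogenous to `B ^ a × C ^ b × D ^ c × ...`, where `B` is an elliptic curve with complex multiplication by
`ℚ(√-d)`, `C` is simple of dimension six, `D` is simple of dimension eight, ..., `ℚ(√-d)` is contained
in the endomorphism algebra of each of them, and the Galois group of the maximal real subfield of the
endomorphism algebra of `C`, `D`, ... is doubly transitive (for instance the symmetric group, the generic
case of abelian varieties of Weil type). There is no assumption on the slopes. In general there are
exotic Weil classes, in arbitrarily high codimension and in several linearly independent families: a
relation between the norms of the `π i` to `ℚ(√-d)`, for instance on `C`, `B ^ 2 × C`, `C × D`,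
`B ^ 2 × C × D`, depending on the slopes.

(C) For a CM field `F` the following are equivalent:

1. for all primes `p` and all Weil `p ^ a`-numbers `π` with `ℚ(π ^ n) = F` for all `n > 0`, any two
   multiplicative relations between the conjugates of `π` are dependent modulo the trivial relations
   `φ π * conj (φ π) = p ^ a` (`AtMostOneRelation`); that is, the angle rank of each absolutely simple
   abelian variety over a finite field with Frobenius field `F` is at least `[F : ℚ] / 2 - 1`;
2. the same for one prime number that splits completely in `F` and all `a > 0`;
3. (`SubfieldCondition`) every stable space of odd functions of codimension at least two consists of
   functions which depend only on the restriction of the embedding to a proper subfield of `F`;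
4. `F` is in the following list (`CMList`): `[F : ℚ] ≤ 4`; the space of odd functions is
   irreducible; it is the sum of the spaces of the functions invariant under `σ` and under `σ c` for
   an involution `σ` of `F` (`c` the complex conjugation), which are irreducible and not isomorphic;
   `F` contains an imaginary quadratic field `ℚ(√-d)` and `core d F` is irreducible; `[F : ℚ] = 8` and
   `F` contains two different imaginary quadratic fields.

(D) If `E i` satisfies these conditions and `A i` has a commutative endomorphism algebra then the
numerical Hodge standard conjecture holds, for all polarizations and in all codimensions, for every
abelian variety `Y` isogenous to the product of a power of `A i` and a supersingular abelian variety. In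
the fourth and fifth case of the list there are exotic Weil classes for suitable slopes; there is no
assumption on the slopes. The fourth case contains all simple `A i` with commutative endomorphism
algebra containing `ℚ(√-d)` such that the Galois group of the maximal real subfield is doubly
transitive; the fifth case all those of dimension four whose endomorphism algebra contains a
biquadratic CM field.

The Tate conjecture is neither assumed nor proved for the exotic classes.

The published theorems which are used are hypotheses in `HodgeOnPowers` on the system `C Y κ` of the
`ℚ`-vector spaces of the classes of algebraic cycles: the formal properties of cycle classes, the
theorems of Lefschetz on the Hodge classes of degree two of the liftings, of Tate on divisors and of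
Markman on split Weil classes (`IsCycleSystem`; the theorem of Markman is not needed), that classes of
cycles are Tate classes (`AreTate`), the positivity of the Rosati involution (`IsRosatiPositive`, Weil),
and the theorem of Ancona on motives of rank two, for the motives of Weil classes (`IsWeilPositive`). An
abelian variety over a finite field is modelled (`RedAV`, by the theorems of Honda and Tate) as the
reduction of an abelian variety of CM type, its cohomology by the alternating forms on `Ω ⊗ H_1`. The
polarizations are those compatible with the complex multiplications of the lifting (`IsPolar`); each
polarized abelian variety over the algebraic closure is isogenous to the reduction of such a polarized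
one (Honda, Tate, Zink). `IsPrim` means primitive in the cohomology, and `IsNumTrivial` is numerical
triviality. A cycle that is primitive up to numerical equivalence is numerically equivalent to one that
is primitive in the cohomology (the Lefschetz decomposition is algebraic for abelian varieties,
Lieberman). (C) is unconditional and does not use any model.

The proof. (A): by the theorem `main` of the module `Q43.HN` of the library the positivity follows if
each relation between the Frobenius eigenvalues of `A` is, up to relations with two terms, a relation
between norms to one imaginary quadratic field (`IsControlled`). The odd relations are the functions `c`
on all embeddings of the fields `E i` that are orthogonal to the function `w` of the slopes and all its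
conjugates; they form a stable space `R`. Let `c` be in `R`. If the projection of the component of `c`
at `E i` to `core d (E i)` is not zero then, by irreducibility and semisimplicity, `R` contains a stable
subspace `S` which is mapped isomorphically to `core d (E i)`. There is no nonzero equivariant map from
`core d (E i)` to the functions `a * sign (φ (√-d))` on `E i` or on another factor (`no_map_to_sign`;
otherwise `core d (E i)` would be one-dimensional, and spanned by a second function of this kind), and
none to `core d (E k)`. So the elements of `S` are zero outside `E i` and in `core d (E i)`, and `w` and
its conjugates are, on `E i`, orthogonal to `core d (E i)`. But the functions orthogonal to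
`core d (E i)` have equal values at two different embeddings of `E i` (`coinc_perp_core`), and then
powers of two conjugates of `π i` are equal, in contradiction to commutativity. Therefore all components
of a relation are orthogonal to the spaces `core d (E i)`, that is multiples of `sign (φ (√-d))`. (B): if
`ℓ = [E i : ℚ] / 2` is a prime number, `core d (E i)` is irreducible since an `ℓ`-cycle acts on the
embeddings over a fixed embedding of `ℚ(√-d)`, and the `ℓ`-th cyclotomic polynomial is irreducible; for
doubly transitive groups it is irreducible by the usual argument; the dimensions exclude maps.

(C): By Kronecker's theorem the relations are given by the orthogonal complement of the space spanned by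
the conjugates of the slope function. Weil numbers with given slopes at a completely split prime are
constructed from generators of powers of prime ideals, so that conditions 1 and 2 are equivalent to
condition 3 (a space which is not contained in the union of the spaces given by a coincidence
`f x = f y` contains a function without coincidences). The projection to a stable space of odd functions
with a nontrivial coincidence has diagonal entries at most `1/4`, so that the dimension of the space is
at most `[F : ℚ] / 4` (`four_finrank`). Under condition 3 a stable space `W` therefore has dimension at
most one, or exactly half of that of the space of odd functions, or codimension at most one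
(`finrank_cases`). If there is no stable line, all proper stable spaces have a nontrivial coincidence,
and by the result `AllCMFields` (MP_ee618e_ag) this gives the second or third case of the list. A stable
line is spanned by a function `sign (φ (√-d))` (`exists_root_of_sign`), and if its complement is
reducible, there is a second line, and the degree is eight, since two different functions
`sign (φ (√-d))` are orthogonal, which is impossible for degree six.

What was known. For simple `A` of prime dimension the conjecture is due to Agugliaro, and products of
simple abelian varieties of different prime dimensions (also with the same imaginary quadratic field)
are in `PrimeDimensions` of the library; dimension at most four is due to Ancona, and powers in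
dimension at most five are in `PowersAndProducts` of the library. The library also has results on
products of abelian varieties whose Frobenius fields have no imaginary quadratic field in common
(`SeparatedFrobeniusFields`). New are (A) and (B) for composite dimensions, (D) for composite dimensions
in the cases with exotic classes (for `SlopeConditions`, of this seat, one needs assumptions on the
slopes), and the equivalence (C). The second and the third case of the list in (C) are those for which
there is no exotic relation for any `p` and any slopes (`AllCMFields`, MP_ee618e_ag, of this seat); the
first case is contained in them, and is only listed for simplicity.
-/

set_option autoImplicit false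

namespace Pool.Agent.Results.MP_c0b458_ag.CommonQuadraticField

open NumberField Module Pool.Agent.W495.TA Pool.Agent.H21.TC Pool.Agent.H21.FF

theorem result :
    (∀ {p : ℕ} [Fact p.Prime] {ν : PadicAlgCl p ≃+* ℂ} (Z : RedAV p ν) (d : ℕ), 0 < d →
      (∀ i, ((∃ t : (Z.X.factor i).E, t ^ 2 = -(d : (Z.X.factor i).E)) ∧
          finrank ℚ (Z.X.factor i).E = 2) ∨
        (Generates (Z.π i) ∧ Irred (CoreFn d (K := (Z.X.factor i).E)))) →
      (∀ i k, i ≠ k →
        NoEquivMaps (CoreFn d (K := (Z.X.factor i).E)) (CoreFn d (K := (Z.X.factor k).E))) →
      HodgeOnPowers Z) ∧
    (∀ {p : ℕ} [Fact p.Prime] {ν : PadicAlgCl p ≃+* ℂ} (Z : RedAV p ν) (d : ℕ), 0 < d →
      (∀ i, ∃ t : (Z.X.factor i).E, t ^ 2 = -(d : (Z.X.factor i).E) ∧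
        (finrank ℚ (Z.X.factor i).E = 2 ∨ (Generates (Z.π i) ∧
          ((∃ g : ℕ, g.Prime ∧ finrank ℚ (Z.X.factor i).E = 2 * g) ∨ IsTwoTransitive t)))) →
      (∀ i k, i ≠ k → finrank ℚ (Z.X.factor i).E = finrank ℚ (Z.X.factor k).E →
        finrank ℚ (Z.X.factor i).E = 2) →
      HodgeOnPowers Z) ∧
    (∀ (F : Type) [Field F] [NumberField F] [IsCMField F],
      List.TFAE
        [∀ (p : ℕ) [Fact p.Prime] (a : ℕ) (π : F), IsWeilNumber (p ^ a) π → Generates π →
            AtMostOneRelation (p ^ a) π,
          ∃ (p : ℕ) (_ : Fact p.Prime), SplitsCompletely p F ∧
            ∀ (a : ℕ) (π : F), 0 < a → IsWeilNumber (p ^ a) π → Generates π →
              AtMostOneRelation (p ^ a) π,
          SubfieldCondition F,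
          CMList F]) ∧
    (∀ {p : ℕ} [Fact p.Prime] {ν : PadicAlgCl p ≃+* ℂ} (Z : RedAV p ν) (i : Z.X.I),
      (∀ k, k = i) → Generates (Z.π i) → CMList (Z.X.factor i).E → HodgeOnPowers Z) :=
  ⟨fun Z d hd h1 h2 => products Z d hd h1 h2, fun Z d hd h1 h2 => products_explicit Z d hd h1 h2,
    fun F _ _ _ => fields F, fun Z i hi hgen h => single Z i hi hgen h⟩

end Pool.Agent.Results.MP_c0b458_ag.CommonQuadraticField
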