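import Pool.Agent.H61.HL.Band

/-!
# The local law of one half for the signs in the standard conjecture of Hodge type

Let `W` be a Weil cohomology on the smooth projective varieties over a field `k`. A *good* polarized
variety `(X, D)` is a smooth projective variety `X` with a divisor `D` (for example an ample one) such
that `deg D ^ (dim X) > 0`, the hard Lefschetz theorem holds for `D`, and the standard conjecture `B`
of Lefschetz type holds for `(X, D)`; all of this is known for polarized abelian varieties.
Products carry the sum of the pull-backs of the divisors. For a polarized variety `P` let `p_n(P)`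
and `q_n(P)` be the largest numbers of pairwise orthogonal primitive algebraic classes of codimension
`n` with positive and with negative squares for the form `(-1) ^ n deg (z · w · D ^ (d - 2 n))`.

**Theorem** (local law of one half). Let `(X, D)` be good. Then either no primitive algebraic
class on any power of `X` has a negative square, or there are `ε > 0` and `ρ < 1`, which depend only on
`X`, such that for every good `Z` and all large `r`, in **every single codimension** `n` of
`Z × X ^ r` with `0 ≤ dim (Z × X ^ r) - 2 n ≤ ε r`,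

`|p_n - q_n| ≤ C ρ ^ r (p_n + q_n)`,

and `p_n + q_n` is positive and at least `N ^ (r - (dim (Z × X ^ r) - 2 n))` up to a factor which is
polynomial in `r`, where `N = dim H(X) ≥ 2`.

**Corollary** (majorities in single codimensions). Let `(X, D)` and `Z` be good, let `δ > 0` and let `J`
be a number. If for infinitely many `r` there is one codimension `n` of `Z × X ^ r` with
`0 ≤ dim (Z × X ^ r) - 2 n ≤ J` such that `q_n ≤ (1 / 2 - δ) (p_n + q_n)`, then no primitive algebraic
class on any power of `X` has a negative square.
-/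

set_option autoImplicit false

open CategoryTheory AlgebraicGeometry Filter Topology

universe u v

namespace Pool.Agent.Results.MP_c0b458_ag.LocalHalfLaw

open Pool.Agent.H914 Pool.Agent.H914.VarClass Pool.Agent.H914.VarClass.Obj
  Pool.Agent.H914.WeilCohomology Pool.Agent.H281R3.HT Pool.Agent.W539.Ker Pool.Agent.H44T.SL
  Pool.Agent.H61.HL

/-- **The local law of one half**, and a criterion for the standard conjecture of Hodge type on all
powers of `X` which needs only a majority of positive signs in single codimensions. -/
theorem result {k : Type u} [Field k] {𝒱 : VarClass k} {ops : CycleOps 𝒱}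
    (W : WeilCohomology.{u, v} ops) (X : Polarized 𝒱) (hX : IsGood W X) :
    ((∀ (m n : ℕ) (z : (times ops X X m).X.Cycles), 2 * n ≤ (times ops X X m).X.dim →
      Primitive W (times ops X X m).X (times ops X X m).D n z →
        0 ≤ pairing ops (times ops X X m).X (times ops X X m).D n z z) ∨
    (2 ≤ Module.finrank W.K (W.H X.X) ∧ ∃ ε ρ : ℝ, 0 < ε ∧ 0 < ρ ∧ ρ < 1 ∧
      ∀ Z : Polarized 𝒱, IsGood W Z → ∃ (C : ℝ) (r₀ : ℕ), 0 < C ∧ ∀ r n : ℕ, r₀ ≤ r →
        2 * n ≤ (times ops Z X r).X.dim → ((times ops Z X r).X.dim : ℝ) ≤ 2 * n + ε * r →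
        |(posNum W (times ops Z X r).X (times ops Z X r).D n : ℝ) -
            negNum W (times ops Z X r).X (times ops Z X r).D n| ≤
          C * ρ ^ r * ((posNum W (times ops Z X r).X (times ops Z X r).D n : ℝ) +
            negNum W (times ops Z X r).X (times ops Z X r).D n) ∧
        (Module.finrank W.K (W.H X.X) : ℝ) ^ r ≤
          C * (r + 1) ^ (2 * Module.finrank W.K (W.H X.X) ^ 2 + 4) *
            (Module.finrank W.K (W.H X.X) : ℝ) ^ ((times ops Z X r).X.dim - 2 * n) *
            ((posNum W (times ops Z X r).X (times ops Z X r).D n : ℝ) +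
              negNum W (times ops Z X r).X (times ops Z X r).D n))) ∧
    (∀ (Z : Polarized 𝒱), IsGood W Z → ∀ (J : ℕ) (δ : ℝ), 0 < δ →
      (∃ᶠ r : ℕ in atTop, ∃ n : ℕ, 2 * n ≤ (times ops Z X r).X.dim ∧
        (times ops Z X r).X.dim ≤ 2 * n + J ∧
        (negNum W (times ops Z X r).X (times ops Z X r).D n : ℝ) ≤
          (1 / 2 - δ) * ((posNum W (times ops Z X r).X (times ops Z X r).D n : ℝ) +
            negNum W (times ops Z X r).X (times ops Z X r).D n)) →
      ∀ (m n : ℕ) (z : (times ops X X m).X.Cycles), 2 * n ≤ (times ops X X m).X.dim →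
        Primitive W (times ops X X m).X (times ops X X m).D n z →
          0 ≤ pairing ops (times ops X X m).X (times ops X X m).D n z z) := by
  constructor
  · rw [or_iff_not_imp_left]
    intro hno
    push Not at hno
    obtain ⟨m, n, z, hn, hz, hneg⟩ := hno
    exact band hX hn hz hneg
  · intro Z hZ J δ hδ hfr m n z hn hz
    by_contra hneg
    rw [not_le] at hneg
    obtain ⟨hN, ε, ρ, hε, hρ0, hρ1, h⟩ := band hX hn hz hneg
    obtain ⟨C, r₀, hC, h⟩ := h Z hZ
    have h1 : Tendsto (fun r : ℕ => C * ρ ^ r) atTop (𝓝 0) := by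
      have := (tendsto_pow_atTop_nhds_zero_of_lt_one hρ0.le hρ1).const_mul C
      rwa [mul_zero] at this
    have h2 : ∀ᶠ r : ℕ in atTop, C * ρ ^ r < 2 * δ := h1.eventually (gt_mem_nhds (by positivity))
    have h3 : ∀ᶠ r : ℕ in atTop, (J : ℝ) ≤ ε * r := by
      have h4 : Tendsto (fun r : ℕ => ε * (r : ℝ)) atTop atTop :=
        Tendsto.const_mul_atTop hε tendsto_natCast_atTop_atTop
      exact h4.eventually_ge_atTop _
    obtain ⟨r, ⟨j, hj, hjJ, hq⟩, hr2, hr3, hr0⟩ :=
      (hfr.and_eventually (h2.and (h3.and (eventually_ge_atTop r₀)))).exists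
    obtain ⟨h5, h6⟩ := h r j hr0 hj (by
      have : ((times ops Z X r).X.dim : ℝ) ≤ 2 * j + J := by exact_mod_cast hjJ
      linarith)
    set p : ℝ := (posNum W (times ops Z X r).X (times ops Z X r).D j : ℝ) with hp
    set q : ℝ := (negNum W (times ops Z X r).X (times ops Z X r).D j : ℝ) with hq'
    have hN0 : (0 : ℝ) < Module.finrank W.K (W.H X.X) := by
      exact_mod_cast (by omega : 0 < Module.finrank W.K (W.H X.X))
    have hpq : 0 < p + q := by
      by_contra h0
      have h7 : C * ((r : ℝ) + 1) ^ (2 * Module.finrank W.K (W.H X.X) ^ 2 + 4) *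
            (Module.finrank W.K (W.H X.X) : ℝ) ^ ((times ops Z X r).X.dim - 2 * j) *
            (p + q) ≤ 0 := mul_nonpos_of_nonneg_of_nonpos (by positivity) (not_lt.1 h0)
      have h8 : (0 : ℝ) < (Module.finrank W.K (W.H X.X) : ℝ) ^ r := by positivity
      linarith
    have h7 : p - q ≤ C * ρ ^ r * (p + q) := (le_abs_self _).trans h5
    have h8 : C * ρ ^ r * (p + q) < 2 * δ * (p + q) := mul_lt_mul_of_pos_right hr2 hpq
    nlinarith

end Pool.Agent.Results.MP_c0b458_ag.LocalHalfLaw
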