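import Pool.Agent.H61.MS.Final

/-!
# The limit law for the signs in the standard conjecture of Hodge type on `Z × X ^ n`

Let `W` be a Weil cohomology on the smooth projective varieties over a field `k`, of any
characteristic. A *good* polarized variety `(X, D)` is a smooth projective variety `X` with a divisor
`D` such that `deg D ^ (dim X) > 0`, the hard Lefschetz theorem holds for `D`, and the standard
conjecture `B` of Lefschetz type holds for `(X, D)`; all of this is known for polarized abelian
varieties. Products carry the sum of the pull-backs of the divisors.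

For a polarized variety `P` and `j ≤ dim P / 2` let `p_{≤ j}(P)` and `q_{≤ j}(P)` be the numbers of
positive and of negative squares of the form of the conjecture on the primitive classes of all
codimensions `n ≤ j` (equivalently, by the Lefschetz decomposition, on all algebraic classes of
codimension `j`). The conjecture for `P` says that `q_{≤ j}(P) = 0` for all `j`.

**Theorem.** Let `(X, D)` and `(Z, E)` be good, `dim X > 0` and `β = dim H(Z)`. There is a
**rational** number `s` such that the share `q_{≤ j} / (p_{≤ j} + q_{≤ j})` of the negative squares on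
`Z × X ^ r` tends to `s`, uniformly in all codimensions `j` with `dim - J ≤ 2 j ≤ dim`, for every
fixed `J`.

* `s = 0` if and only if the conjecture holds for all `Z × X ^ r`, `r ≥ 0`, and then it holds for all
  powers of `X`.
* If it fails for some power of `X`, then `s = 1 / 2`.
* If it holds for all powers of `X`, then `s = y / (x + y)` with natural numbers `x`, `y` such that
  `p_{≤ j}(Z × X ^ n) / p(X ^ n) → x`, `q_{≤ j}(Z × X ^ n) / p(X ^ n) → y`, `x + y ≤ β`, and `x`
  and `y` are at least the numbers of positive and of negative squares on the algebraic classes of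
  all codimensions of `Z` itself. In particular `dim Z + 1 ≤ x`.

**Corollary** (gap). The share of the negative squares cannot be small: if for infinitely many `r`
there is one codimension `j` near the middle of `Z × X ^ r` in which it is at most
`min (1 / 2) (1 / β) - δ`, then the conjecture holds for all powers of `X` and for all
`Z × X ^ r`. It cannot be large either: `s ≤ max (1 / 2) (1 - (dim Z + 1) / β)`.
-/

set_option autoImplicit false

open CategoryTheory AlgebraicGeometry Filter Topology

universe u v

namespace Pool.Agent.Results.MP_c0b458_ag.MixedSignLaw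

open Pool.Agent.H914 Pool.Agent.H914.VarClass Pool.Agent.H914.VarClass.Obj
  Pool.Agent.H914.WeilCohomology Pool.Agent.H281R3.HT Pool.Agent.W539.Ker Pool.Agent.H44T.SL
  Pool.Agent.H61.MS

/-- **The limit law for the signs** on the products of `Z` with the powers of `X`. -/
theorem result {k : Type u} [Field k] {𝒱 : VarClass k} {ops : CycleOps 𝒱}
    (W : WeilCohomology.{u, v} ops) (X Z : Polarized 𝒱) (hX : IsGood W X) (hZ : IsGood W Z)
    (hd : 0 < X.X.dim) :
    ∃ s : ℚ,
      -- the share of the negative squares tends to `s` in every single codimension near the middle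
      (∀ (J : ℕ) (ε : ℝ), 0 < ε → ∀ᶠ r : ℕ in atTop, ∀ j : ℕ, NearMiddle (times ops Z X r) J j →
        |negShare W (times ops Z X r) j - s| ≤ ε) ∧
      -- it vanishes if and only if there are no negative squares at all
      (s = 0 ↔ ∀ r, NoNegative W (times ops Z X r)) ∧
      (s = 0 → ∀ m, NoNegative W (times ops X X m)) ∧
      -- the values
      s ≤ max (1 / 2 : ℚ) (1 - ((Z.X.dim : ℚ) + 1) / (Module.finrank W.K (W.H Z.X) : ℚ)) ∧
      ((∃ m, ¬ NoNegative W (times ops X X m)) → s = 1 / 2) ∧
      ((∀ m, NoNegative W (times ops X X m)) → ∃ x y : ℕ, Z.X.dim + 1 ≤ x ∧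
        allPos W Z ≤ x ∧ allNeg W Z ≤ y ∧ x + y ≤ Module.finrank W.K (W.H Z.X) ∧
        s = y / (x + y) ∧
        ∀ (J : ℕ) (ε : ℝ), 0 < ε → ∀ᶠ r : ℕ in atTop, ∀ j : ℕ,
          NearMiddle (times ops Z X (r + 1)) J j →
          |(posUpTo W (times ops Z X (r + 1)) j : ℝ) - x * posTotal W (times ops X X r)| ≤
            ε * posTotal W (times ops X X r) ∧
          |(negUpTo W (times ops Z X (r + 1)) j : ℝ) - y * posTotal W (times ops X X r)| ≤
            ε * posTotal W (times ops X X r)) ∧
      -- the gap: a small share of negative squares, infinitely often, in single codimensions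
      (∀ (J : ℕ) (δ : ℝ), 0 < δ → (∃ᶠ r : ℕ in atTop, ∃ j : ℕ, NearMiddle (times ops Z X r) J j ∧
        negShare W (times ops Z X r) j ≤
          min (1 / 2) (1 / (Module.finrank W.K (W.H Z.X) : ℝ)) - δ) →
        (∀ m, NoNegative W (times ops X X m)) ∧ ∀ r, NoNegative W (times ops Z X r)) := by
  obtain ⟨s, h1, h2, h3, h4, h5⟩ := limit_law hX hZ hd
  have hkey : ∀ x y : ℕ, allPos W Z ≤ x → x + y ≤ Module.finrank W.K (W.H Z.X) →
      Z.X.dim + 1 ≤ x := fun x y hx _ => (one_le_allPos hZ).trans hx
  refine ⟨s, h1, h2, h3, ?_, h4, ?_, ?_⟩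
  · by_cases hpos : ∀ m, NoNegative W (times ops X X m)
    · obtain ⟨x, y, hx, hy, hxy, hs, -⟩ := h5 hpos
      have hx1 := hkey x y hx hxy
      refine le_trans ?_ (le_max_right _ _)
      set β := Module.finrank W.K (W.H Z.X) with hβ
      have hx0 : (0 : ℚ) < x := by exact_mod_cast (by omega : 0 < x)
      have hy0 : (0 : ℚ) ≤ y := Nat.cast_nonneg y
      have hxy0 : (0 : ℚ) < x + y := by linarith
      have hβ0 : (0 : ℚ) < β := by exact_mod_cast (by omega : 0 < β)
      have e1 : s = 1 - x / (x + y) := by
        rw [hs]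
        field_simp
        ring
      rw [e1]
      have e2 : ((Z.X.dim : ℚ) + 1) / β ≤ x / (x + y) := by
        rw [div_le_div_iff₀ hβ0 hxy0]
        have e3 : ((Z.X.dim : ℚ) + 1) ≤ x := by exact_mod_cast hx1
        have e4 : ((x : ℚ) + y) ≤ β := by exact_mod_cast hxy
        exact mul_le_mul e3 e4 hxy0.le hx0.le
      linarith
    · push Not at hpos
      rw [h4 hpos]
      exact le_max_left _ _
  · intro hpos
    obtain ⟨x, y, hx, hy, hxy, hs, h⟩ := h5 hpos
    exact ⟨x, y, hkey x y hx hxy, hx, hy, hxy, hs, h⟩
  · intro J δ hδ hfr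
    set β := Module.finrank W.K (W.H Z.X) with hβ
    have hs : (s : ℝ) < min (1 / 2) (1 / (β : ℝ)) := by
      obtain ⟨r, ⟨j, hj, hq⟩, hr⟩ := (hfr.and_eventually (h1 J (δ / 2) (by positivity))).exists
      have h6 := abs_le.1 (hr j hj)
      linarith
    have hs1 : (s : ℝ) < 1 / 2 := lt_of_lt_of_le hs (min_le_left _ _)
    have hs2 : (s : ℝ) < 1 / (β : ℝ) := lt_of_lt_of_le hs (min_le_right _ _)
    have hpos : ∀ m, NoNegative W (times ops X X m) := by
      by_contra hcon
      push Not at hcon
      have h6 := h4 hcon
      rw [h6] at hs1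
      norm_num at hs1
    refine ⟨hpos, h2.1 ?_⟩
    obtain ⟨x, y, hx, hy, hxy, hs', -⟩ := h5 hpos
    have hx1 := hkey x y hx hxy
    by_contra hs0
    have hy1 : y ≠ 0 := by
      rintro rfl
      apply hs0
      rw [hs']
      simp
    have hβ0 : (0 : ℝ) < β := by exact_mod_cast (by omega : 0 < β)
    have hxy0 : (0 : ℝ) < (x : ℝ) + y := by exact_mod_cast (by omega : 0 < x + y)
    have e1 : (s : ℝ) = (y : ℝ) / (x + y) := by rw [hs']; push_cast; rfl
    rw [e1, div_lt_div_iff₀ hxy0 hβ0, one_mul] at hs2
    have e3 : (1 : ℝ) ≤ y := by exact_mod_cast Nat.one_le_iff_ne_zero.2 hy1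
    have e4 : ((x : ℝ) + y) ≤ β := by exact_mod_cast hxy
    nlinarith

end Pool.Agent.Results.MP_c0b458_ag.MixedSignLaw
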