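import Mathlib
import Pool.Agent.H21.HS.Cond
import Pool.Agent.H21.HS.Dep
import Pool.Graph.R_pool_sql_team_seeded_3997aac3.Q43.HN.Main

/-!
# Conditions on the slopes of a simple abelian variety over a finite field for the numerical Hodge
standard conjecture on all its powers

Let `A` be a geometrically simple abelian variety of dimension `g` over the field with `q = p ^ a`
elements such that the powers of its Frobenius endomorphism `π` generate a CM field `E` of degree
`2 g` (equivalently, the endomorphism algebra of `A` over an algebraic closure is commutative). Let
`s j` and `1 - s j` (`j < g`) be the slopes of `A`, and put `m j = 1 - 2 s j`. Nothing is assumed about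
the Galois group and the subfields of `E`, about the decomposition of `p`, and about the distribution
of the slopes among the embeddings of `E`.

**Theorem.** Suppose that one of the following conditions holds (`SlopeCondition`).

* `OneDominates`: `|m j| > ∑ |m k|` (the sum over `k ≠ j`) for some `j`, or `|m j| = ∑ |m k|` for
  some `j` and no `m k` is zero;
* `OneEven`: the `m j` are proportional to integers exactly one of which is even;
* `OneDominatesAt`: for some prime number `ℓ` and some `j` the `ℓ`-adic absolute value of `m j` is
  larger than those of all other `m k`;
* `NoSumDivisible`: `g` is a power of a prime number `ℓ`, and the `m j` are proportional to integers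
  such that no sum of all these integers, with any signs, is divisible by `ℓ`;
* `NoEqualSums`: `g = ℓ ^ 2` for an odd prime number `ℓ`, and the numbers `± m j` cannot be arranged, for
  any choice of the signs, in a square with equal sums of the rows.

Then

1. any two multiplicative relations between the Frobenius eigenvalues of `A` are dependent modulo
   the relations with at most two terms (`IsDependent`, for all `r`); that is, the angle rank of `A`
   is at least `g - 1`. This is unconditional;
2. the numerical Hodge standard conjecture holds, for all polarizations and in all codimensions, for
   every abelian variety `Y` which is isogenous (over an algebraic closure) to the product of a power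
   of `A` and of a supersingular abelian variety: if `z` is the class of a cycle of codimension `r` on
   `Y` that is not numerically equivalent to zero, and the product of `z` and of the power `m + 1` of
   the class `L` of the polarization is zero, `dim Y = 2 r + m`, then `(-1) ^ r z · z · L ^ m > 0`.

Examples. `OneEven`: `A` is almost ordinary (one pair of slopes is `1 / 2`, `1 / 2` and the others are
`0`, `1`); or one pair of slopes is `0`, `1` and the others are `1 / 4`, `3 / 4`; or generally `m` is
proportional to `(c, 1, ..., 1)`, `c` even. `OneDominates`, equality: `m` is proportional to
`(g - 1, 1, ..., 1)`, for example `(5, 1, 1, 1, 1, 1)` for `g = 6`, or to `(7, 3, 1, 1, 1, 1)`.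
`NoEqualSums`: the slopes are `0`, `1` with multiplicity `f` (the `p`-rank) and `1 / 2` with multiplicity
`2 (g - f)`, where `f` is even and `f > ℓ ^ 2 - ℓ`, or `f` is odd and `f < ℓ` (for `g = 25` these are the
`p`-ranks `1`, `3`, `22`, `24`); or, for `g = 9`, `m` is proportional to `(4, 1, 1, 1, 1, 0, 0, 0, 0)` or to
`(5, 2, 1, 1, 1, 0, 0, 0, 0)`, which are not covered by the other conditions.

In general there are exotic Tate classes in these cases (on `A`, Weil classes of an imaginary quadratic
subfield of `E`). The Tate conjecture is neither assumed nor proved for them.

The published theorems which are used are hypotheses on the system `C Y κ` of the `ℚ`-vector spaces of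
the classes of algebraic cycles: the formal properties of cycle classes, the theorems of Lefschetz on
the Hodge classes of degree two of the liftings, of Tate on divisors and of Markman on split Weil classes
(`IsCycleSystem`; the theorem of Markman is not needed), that classes of cycles are Tate classes
(`AreTate`), the positivity of the Rosati involution (`IsRosatiPositive`, Weil), and the theorem of
Ancona on motives of rank two, for the motives of Weil classes (`IsWeilPositive`). An abelian variety
over a finite field is modelled (`RedAV`, by the theorems of Honda and Tate) as the reduction of an
abelian variety of CM type, its cohomology by the alternating forms on `Ω ⊗ H_1`. The polarizations are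
those compatible with the complex multiplications of the lifting (`IsPolar`); each polarized abelian
variety over the algebraic closure is isogenous to the reduction of such a polarized one (Honda, Tate,
Zink). `IsPrim` means primitive in the cohomology, and `IsNumTrivial` is numerical triviality. A cycle
that is primitive up to numerical equivalence is numerically equivalent to one that is primitive in the
cohomology (the Lefschetz decomposition is algebraic for abelian varieties, Lieberman), so that (2) is
the conjecture for the cycles that are primitive up to numerical equivalence.

The proof. The relations correspond to the functions `c` on the embeddings of `E` with values in the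
rational numbers, odd for the complex conjugation, and orthogonal to all Galois conjugates of the
function `w` of the slopes; `w` has the values `± m j`, in an unknown order. We show that a relation `c`
with a zero vanishes (`FewRel`); so any two relations are proportional. Dominance: look at an embedding
at which `|c|` is maximal, or at which the `ℓ`-adic absolute value is maximal; in the case of equality
`|c|` is constant. One even weight: let the `c φ` be coprime integers; by the relation and the invariance
of `∑ c φ ^ 2` all `c φ` are congruent modulo two, so that all are even if one is zero. Squares of
primes: the Galois group has a subgroup `B` which is abelian of order `ℓ ^ 2` and acts freely on the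
embeddings. If `c` has a zero, it is not constant on the orbits, and the Fourier transform of `c` on an
orbit does not vanish at a nontrivial character `χ`. Therefore `∑ χ (b) w (σ b φ) = 0` for all `σ`. If
`χ` has order `ℓ` this gives equal sums over the cosets of the kernel, and if `χ` has order `ℓ ^ 2` then
`w σ` is constant on the cosets of the subgroup of order `ℓ`, so that different embeddings have the same
absolute values and `E` is not generated by the powers of `π`. In the case `NoSumDivisible` a nonzero
relation modulo `ℓ` can be chosen invariant under an `ℓ`-Sylow subgroup, which is transitive on the pairs
of embeddings. That the dependence of relations implies the positivity is the theorem `main` with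
`controlled_of_dependent` of the module `Q43.HN` of the library (result `PrimeDimensions`).

What was known. For prime `g` the conjecture is due to Agugliaro (and `PrimeDimensions` in the library).
Strict dominance (K3 type: Zarhin), `OneDominatesAt` and `NoSumDivisible` imply that all relations are
trivial; these cases are contained in `RigidSlopes` of the library and are included for completeness. For
one even weight it was known (`RigidSlopes`) that all relations are trivial if `g` is even or no signed
sum of all `m j` vanishes or `E` contains no imaginary quadratic field; the angle ranks of almost ordinary
abelian varieties were determined by Lenstra and Zarhin. New are: one even weight for all fields `E`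
(that is for odd `g` and a vanishing signed sum), equality in the dominance, and the condition for
`g = ℓ ^ 2` when a signed sum of all `m j` vanishes. (If none vanishes all relations are trivial, by
`CompositeDimensions`, MP_ee618e_ag, of this seat.)
-/

set_option autoImplicit false

namespace Pool.Agent.Results.MP_c0b458_ag.SlopeConditions

open Module Pool.Agent.W547.KB Pool.Agent.W495.TA Pool.Agent.W495.TC Pool.Agent.TH117.PO
  Pool.Agent.TH117.BL Pool.Agent.Q43.HN Pool.Agent.H21.NP Pool.Agent.H21.HS

theorem result {p : ℕ} [Fact p.Prime] {ν : PadicAlgCl p ≃+* ℂ} {Z : RedAV p ν} (i : Z.X.I)
    (hi : ∀ k, k = i) (hcom : IsCommutative Z i) {g : ℕ} (s : Fin g → ℚ)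
    (hs : HasSlopes p Z.a (Z.π i) s) (hcond : SlopeCondition s) :
    (∀ r, IsDependent Z r) ∧
    ∀ (Ω : Type) [Field Ω] [CharZero Ω] [IsAlgClosed Ω]
      (C : (Y : RedAV p ν) → (κ : Type) → ((TM Ω Y) [⋀^κ]→ₗ[Ω] Ω) → Prop),
      IsCycleSystem Ω C → IsRosatiPositive Ω C → IsWeilPositive Ω C → AreTate Ω C →
      ∀ Y : RedAV p ν, IsPowersTimesSupersingular Z Y → ∀ α : Y.X.H1, IsPolar Y.X α →
      ∀ r m : ℕ, 2 * (2 * r + m) = finrank ℚ Y.X.H1 →
      ∀ z : (TM Ω Y) [⋀^Fin r × Fin 2]→ₗ[Ω] Ω, C Y _ z → ¬ IsNumTrivial Ω C z →
        IsPrim α m z → IsPosClass α m z := by
  have hdep : ∀ r, IsDependent Z r := dependent_of_few i hi hcom s hs (few_of_condition hcond)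
  refine ⟨hdep, fun Ω _ _ _ C hC hR hW hT Y hY α hα r m hrm z hz hnum hprim => ?_⟩
  refine main hC hR hW hT (controlled_of_dependent Z (fun k => ?_) (hdep r)) hY hα hrm hz hnum hprim
  obtain rfl := hi k
  exact Or.inr hcom

end Pool.Agent.Results.MP_c0b458_ag.SlopeConditions
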